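import Pool.Agent.Work.MP_7f974f_gt.Final
import Pool.Agent.Work.MP_7f974f_gt.FBridge

/-!
# The Gromov-Hitchin-Thorpe inequality for the normalised Ricci flow
All definitions are in `Core.lean` and `FDefs.lean` (folder `Pool/Agent/Work/MP_7f974f_gt/`).
-/

open scoped Manifold ContDiff
open NRF

namespace Pool.Agent.Results.MP_7f974f_gt.GromovHitchinThorpe

/-- Let `X` be a closed connected oriented smooth 4-manifold with `λ-bar(X) < 0` which carries a
quasi-non-singular solution of the normalised Ricci flow. Then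
`2 χ(X) - 3 |τ(X)| ≥ ‖X‖ / (144 π²)`. -/
theorem result (X : Type) [TopologicalSpace X] [T2Space X] [CompactSpace X] [ConnectedSpace X]
    [ChartedSpace E4 X] [IsManifold (𝓡 4) ∞ X] [MeasurableSpace X] [BorelSpace X]
    (hX : OrientedAtlas X) (hl : lamBar X < 0) (hg : ∃ g : ℝ → Metric X, IsQuasiNonSingular g) :
    (1 / (144 * Real.pi ^ 2)) * simplicialVolume X ≤
      2 * (eulerC X : ℝ) - 3 * |(signat X : ℝ)| := by
  rw [eulerC_eq, signat_eq]
  exact prf_TargetStrong X hX hl hg

end Pool.Agent.Results.MP_7f974f_gt.GromovHitchinThorpe
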